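import Pool.Agent.Helper85.RL.Stmts2

/-! Hypergraph removal with a logarithm inside: reduction to the core. -/

set_option autoImplicit false

namespace Pool.Helper85.RL

open Finset Pool.Helper16.HR

/-- BLOW: the blow-up inequality. -/
def ST_BLOW : Prop := ∀ (I J V : Type) [Fintype I] [DecidableEq I] [Fintype J] [DecidableEq J]
  [Nonempty J] [Fintype V] [Nonempty V] (F : (I → V) → ℝ), (∀ x, 0 ≤ F x) →
  av F ^ (Fintype.card J ^ Fintype.card I) ≤
    (∑ z : I → J → V, ∏ s : I → J, F (fun i => z i (s i))) /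
      (Fintype.card (I → J → V) : ℝ)

/-- HOMC: many homomorphic copies of `E'` give many homomorphic copies of `E`. -/
def ST_HOMC : Prop := ∀ (h n k : ℕ) (E E' : Finset (Finset (Fin h))) (f : Fin h → Fin h)
  (G : Finset (Finset (Fin n))), 1 ≤ h → 1 ≤ n → (∀ e ∈ E, e.card = k) →
  (∀ e ∈ E', e.card = k) → (∀ e ∈ E, e.image f ∈ E') → (∀ g ∈ G, g.card = k) →
  av (one (fun x : Fin h → Fin n => ∀ e ∈ E', e.image x ∈ G)) ^ (h ^ h) ≤
    av (one (fun x : Fin h → Fin n => ∀ e ∈ E, e.image x ∈ G))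

/-- CORE: the removal lemma for `E` from the removal lemma for a subfamily `E'` which is a
homomorphic image. -/
def ST_CORE : Prop := ∀ (h k m X X' : ℕ) (E E' : Finset (Finset (Fin h))) (f : Fin h → Fin h),
  E.Nonempty → E' ⊆ E → (∀ e ∈ E, e.card = k) → 1 ≤ k → (∀ e ∈ E, e.image f ∈ E') → 1 ≤ X' →
  2 * X' ^ (h ^ h) < X → (h ^ 2 * X' ^ (h ^ h)) ^ h < X → Removal E' k m X' → Removal E k m X

/-- CNUM: the numbers of the reduction. -/
def ST_CNUM : Prop := ∀ l h c : ℕ, 1 ≤ l → 1 ≤ c →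
  2 * Ack l (2 ^ (3 * h + 9) * c) ^ (h ^ h) < Ack l (2 ^ (3 * h + 10) * c) ∧
  (h ^ 2 * Ack l (2 ^ (3 * h + 9) * c) ^ (h ^ h)) ^ h < Ack l (2 ^ (3 * h + 10) * c)

/-- PRIMM: the bound is primitive recursive. -/
def ST_PRIMM : Prop := ∀ l : ℕ, Primrec₂ (fun h m : ℕ => Ack l (2 ^ (3 * h + 10) * Nat.clog 2 m))

end Pool.Helper85.RL
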