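import Pool.Agent.Helper16.HR.Stmts

/-! Hypergraph removal with a logarithm inside: definitions and statements of the modules. -/

set_option autoImplicit false

namespace Pool.Helper85.RL

open Finset Pool.Helper16.HR

open Classical in
/-- indicator function -/
noncomputable def one {α : Type} (P : α → Prop) (x : α) : ℝ := if P x then 1 else 0

/-- entropy of `b` for the colours below `e` -/
noncomputable def ent {I V : Type} [Fintype I] [DecidableEq I] [Fintype V]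
    (L : Finset (Finset I)) (c : Finset I → (I → V) → ℕ) (e : Finset I) (b : (I → V) → ℝ) : ℝ :=
  av (fun x => ce L c e b x * Real.log (ce L c e b x))

/-- GAIN: entropy increment. -/
def ST_GAIN : Prop := ∀ (I V : Type) [Fintype I] [DecidableEq I] [Fintype V] [Nonempty V]
  (L : Finset (Finset I)) (c c' : Finset I → (I → V) → ℕ) (e : Finset I)
  (b χ : (I → V) → ℝ), Ref L c' c → (∀ x, 0 ≤ b x) → (∀ x, χ x = 0 ∨ χ x = 1) →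
  (∀ x, ∀ y ∈ cls L c' e x, χ y = χ x) →
  (∀ x, ce L c e (fun y => b y * χ y) x ≤ ce L c e b x / 2 * ce L c e χ x) →
  ent L c e b + (1 - Real.log 2) / 2 * av (fun x => ce L c e b x * χ x) ≤ ent L c' e b

/-- ENTB: bounds for the entropy. -/
def ST_ENTB : Prop := ∀ (I V : Type) [Fintype I] [DecidableEq I] [Fintype V] [Nonempty V]
  (L : Finset (Finset I)) (c : Finset I → (I → V) → ℕ) (e : Finset I)
  (b : (I → V) → ℝ), (∀ x, 0 ≤ b x ∧ b x ≤ 1) →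
  ent L c e b ≤ 0 ∧ (0 < av b → av b * Real.log (av b) ≤ ent L c e b)

/-- COV: a maximal cover of a class by product sets on which `b` is sparse. -/
def ST_COV : Prop := ∀ (I V : Type) [Fintype I] [DecidableEq I] [Fintype V] [Nonempty V]
  (S : Finset (Finset I)) (κ : (I → V) → Prop) (b : (I → V) → ℝ) (ρ γ : ℝ), 0 < γ →
  ∃ (n : ℕ) (g : ℕ → Finset I → (I → V) → Prop), (∀ i, ∀ U ∈ S, Dep U (g i U)) ∧
    (n : ℝ) * γ ≤ 1 ∧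
    av (fun x => b x * one (fun y => κ y ∧ ∃ i < n, ∀ U ∈ S, g i U y) x) ≤
      ρ * av (one (fun y => κ y ∧ ∃ i < n, ∀ U ∈ S, g i U y)) ∧
    ∀ s : Finset I → (I → V) → Prop, (∀ U ∈ S, Dep U (s U)) →
      γ ≤ av (one (fun y => κ y ∧ (¬ ∃ i < n, ∀ U ∈ S, g i U y) ∧ ∀ U ∈ S, s U y)) →
      ρ * av (one (fun y => κ y ∧ (¬ ∃ i < n, ∀ U ∈ S, g i U y) ∧ ∀ U ∈ S, s U y)) ≤
        av (fun x => b x *
          one (fun y => κ y ∧ (¬ ∃ i < n, ∀ U ∈ S, g i U y) ∧ ∀ U ∈ S, s U y) x)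

/-- SEQ: the edges are inserted one after the other. -/
def ST_SEQ : Prop := ∀ (I V : Type) [Fintype I] [DecidableEq I] [Fintype V] [Nonempty V]
  (L : Finset (Finset I)) (rk : Finset I → ℕ), Lat L rk → ∀ E : Finset (Finset I), E ⊆ L →
  (∀ e ∈ E, ∀ T ∈ L, e ⊆ T → T = e) →
  ∀ c : Finset I → (I → V) → ℕ, (∀ U ∈ L, Dep U (c U)) → (∀ e ∈ E, ∀ x y, c e x = c e y) →
  ∀ (x0 : I → V) (C B : Finset I → (I → V) → Prop), (∀ e ∈ E, Dep e (C e)) →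
  (∀ e ∈ E, Dep e (B e)) → ∀ ρ γ a : ℝ, 0 ≤ ρ → ρ ≤ 1 → 0 ≤ γ → 0 ≤ a →
  γ ≤ a * (ρ / 2) ^ E.card →
  (∀ e ∈ E, ∀ s : Finset I → (I → V) → Prop, (∀ U ∈ below L e, Dep U (s U)) →
    γ ≤ av (one (fun x => (∀ U ∈ below L e, c U x = c U x0) ∧ ¬ C e x ∧
      ∀ U ∈ below L e, s U x)) →
    ρ * av (one (fun x => (∀ U ∈ below L e, c U x = c U x0) ∧ ¬ C e x ∧
      ∀ U ∈ below L e, s U x)) ≤
    av (one (fun x => B e x ∧ (∀ U ∈ below L e, c U x = c U x0) ∧ ¬ C e x ∧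
      ∀ U ∈ below L e, s U x))) →
  a ≤ av (one (fun x => (∀ T ∈ L, c T x = c T x0) ∧ ∀ e ∈ E, ¬ C e x)) →
  a * (ρ / 2) ^ E.card ≤ av (one (fun x => ∀ e ∈ E, B e x))

/-- MARG: marginals in the counting lemma. -/
def ST_MARG : Prop := ∀ (I V : Type) [Fintype I] [DecidableEq I] [Fintype V] [Nonempty V]
  (L : Finset (Finset I)) (rk : Finset I → ℕ), Lat L rk →
  ∀ (c : Finset I → (I → V) → ℕ), (∀ U ∈ L, Dep U (c U)) →
  ∀ (x0 : I → V) (D : Finset I → (I → V) → ℝ) (d : Finset I → ℝ) (δ γ : ℕ → ℝ) (η κ : ℝ),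
  (∀ T ∈ L, Dep T (D T) ∧ ∀ x, 0 ≤ D T x ∧ D T x ≤ 1) →
  (∀ T ∈ L, δ (rk T) ≤ d T ∧ d T ≤ 1) → d ∅ = 1 →
  (∀ r, 0 < δ r ∧ δ r ≤ 1 ∧ 0 ≤ γ r) → (∀ r s, r ≤ s → δ r ≤ δ s) →
  (∀ r s, r ≤ s → γ r * (1 / δ r) ^ (L.card ^ 2) ≤ γ s * (1 / δ s) ^ (L.card ^ 2)) → 0 ≤ η →
  (∀ T ∈ L, av (fun x => |D T x - d T| * ∏ U ∈ below L T, ind c U (c U x0) x) ≤
    γ (rk T) * av (fun x => ∏ U ∈ below L T, ind c U (c U x0) x)) →
  (∀ T ∈ L, Disc L T (fun x => ind c T (c T x0) x - D T x) η) → κ ≤ 1 / 2 →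
  (∀ s, 2 ^ (L.card + 1) * (γ s * (1 / δ s) ^ (L.card ^ 2) +
    η * (1 / δ 0) ^ (L.card ^ 2 + L.card)) ≤ κ) →
  ∀ S ∈ L, ∀ g : (I → V) → ℝ, Dep S g → (∀ x, 0 ≤ g x ∧ g x ≤ 1) →
  |av (fun x => g x * ∏ T ∈ L, ind c T (c T x0) x) -
    (∏ T ∈ L.filter (fun T => ¬ T ⊆ S), d T) *
      av (fun x => g x * ∏ T ∈ L.filter (fun T => T ⊆ S), ind c T (c T x0) x)| ≤
    κ * ∏ T ∈ L, d T

/-- MARC: marginals with the thresholds of the regularity lemma. -/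
def ST_MARC : Prop := ∀ (I V : Type) [Fintype I] [DecidableEq I] [Fintype V] [Nonempty V]
  (L : Finset (Finset I)) (rk : Finset I → ℕ), Lat L rk →
  ∀ (c : Finset I → (I → V) → ℕ), (∀ U ∈ L, Dep U (c U)) →
  ∀ (Ms : ℕ → ℕ) (x0 : I → V) (D : Finset I → (I → V) → ℝ),
  (∀ r s, r ≤ s → Ms s ≤ Ms r) → (∀ r, 2 ≤ Ms r) →
  (∀ T ∈ L, Dep T (D T) ∧ ∀ x, 0 ≤ D T x ∧ D T x ≤ 1) →
  (∀ T ∈ L, del (Ms (rk T)) ≤ ce L c T (ind c T (c T x0)) x0) →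
  (∀ T ∈ L, ∑ y ∈ cls L c T x0, (D T y - ce L c T (ind c T (c T x0)) x0) ^ 2 ≤
    gam L.card (Ms (rk T)) ^ 2 * ((cls L c T x0).card : ℝ)) →
  (∀ T ∈ L, Disc L T (fun x => ind c T (c T x0) x - D T x) (eta L.card (Ms 0))) →
  ∀ N : ℕ, 2 ≤ N → (∀ r, 8 * N ≤ Ms r) → ∀ e ∈ L, (∀ x y, c e x = c e y) →
  ∀ P : (I → V) → Prop, Dep e P → (∀ x, P x → ∀ U ∈ below L e, c U x = c U x0) →
  av (one P) * (2 * N) ≤ av (one (fun x => ∀ U ∈ below L e, c U x = c U x0)) →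
  av (one (fun x => P x ∧ ∀ T ∈ L, c T x = c T x0)) * N ≤
    av (one (fun x => ∀ T ∈ L, c T x = c T x0))

/-- PACK: a maximal edge-disjoint family of copies. -/
def ST_PACK : Prop := ∀ (I V : Type) [Fintype I] [DecidableEq I] [Fintype V] [Nonempty V]
  (E : Finset (Finset I)) (k : ℕ), E.Nonempty → (∀ e ∈ E, e.card = k) →
  ∀ B : Finset I → (I → V) → Prop, (∀ e ∈ E, Dep e (B e)) →
  ∃ (B' : Finset I → (I → V) → Prop) (d : ℝ), (∀ e ∈ E, Dep e (B' e)) ∧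
    (∀ e ∈ E, ∀ x, B' e x → B e x) ∧ (∀ e ∈ E, av (one (B' e)) = d) ∧
    (∀ x, ¬ ∀ e ∈ E, B e x ∧ ¬ B' e x) ∧
    ∀ R : Finset I → (I → V) → Prop, (∀ e ∈ E, Dep e (R e)) →
      ∑ e ∈ E, av (one (fun x => B' e x ∧ R e x)) < d →
      ∃ x0, ∀ e ∈ E, B' e x0 ∧ ¬ R e x0

end Pool.Helper85.RL
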