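import Pool.Agent.Helper85.RL.Stmts2

/-! Auxiliary lemmas on indicators and the entropy gain of a family of covers. -/

set_option autoImplicit false
set_option linter.unusedSectionVars false

namespace Pool.Helper85.RL

open Finset Pool.Helper16.HR

theorem one_nonneg {α : Type} (P : α → Prop) (x : α) : 0 ≤ one P x := by
  unfold one
  split_ifs <;> norm_num

theorem one_le_one {α : Type} (P : α → Prop) (x : α) : one P x ≤ 1 := by
  unfold one
  split_ifs <;> norm_num

theorem one_of {α : Type} {P : α → Prop} {x : α} (h : P x) : one P x = 1 := by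
  unfold one
  rw [if_pos h]

theorem one_not {α : Type} {P : α → Prop} {x : α} (h : ¬ P x) : one P x = 0 := by
  unfold one
  rw [if_neg h]

theorem one_mul_one {α : Type} (P Q : α → Prop) (x : α) :
    one P x * one Q x = one (fun y => P y ∧ Q y) x := by
  by_cases hP : P x
  · by_cases hQ : Q x
    · rw [one_of hP, one_of hQ, one_of (P := fun y => P y ∧ Q y) ⟨hP, hQ⟩, one_mul]
    · rw [one_not hQ, one_not (P := fun y => P y ∧ Q y) (fun h => hQ h.2), mul_zero]
  · rw [one_not hP, one_not (P := fun y => P y ∧ Q y) (fun h => hP h.1), zero_mul]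

theorem one_congr {α β : Type} {P : α → Prop} {Q : β → Prop} {x : α} {y : β}
    (h : P x ↔ Q y) : one P x = one Q y := by
  by_cases hP : P x
  · rw [one_of hP, one_of (h.1 hP)]
  · rw [one_not hP, one_not (fun hQ => hP (h.2 hQ))]

theorem one_mono {α : Type} {P Q : α → Prop} {x : α} (h : P x → Q x) : one P x ≤ one Q x := by
  by_cases hP : P x
  · rw [one_of hP, one_of (h hP)]
  · rw [one_not hP]
    exact one_nonneg _ _

section

variable {I V : Type} [Fintype I] [DecidableEq I] [Fintype V]

theorem av_one_card (P : (I → V) → Prop) [DecidablePred P] :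
    av (one P) = ((univ.filter P).card : ℝ) / (Fintype.card (I → V) : ℝ) := by
  unfold av
  congr 1
  rw [← sum_boole]
  refine sum_congr rfl fun x _ => ?_
  by_cases h : P x
  · rw [one_of h, if_pos h]
  · rw [one_not h, if_neg h]

theorem av_one_mono {P Q : (I → V) → Prop} (h : ∀ x, P x → Q x) : av (one P) ≤ av (one Q) :=
  av_mono fun x => one_mono (h x)

theorem av_one_nonneg (P : (I → V) → Prop) : 0 ≤ av (one P) := av_nonneg fun x => one_nonneg _ _

theorem av_one_le_one [Nonempty V] (P : (I → V) → Prop) : av (one P) ≤ 1 :=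
  av_le_one fun x => one_le_one _ _

theorem av_one_congr {P Q : (I → V) → Prop} (h : ∀ x, P x ↔ Q x) : av (one P) = av (one Q) := by
  rw [show P = Q from funext fun x => propext (h x)]

variable {L : Finset (Finset I)} {c c' : Finset I → (I → V) → ℕ} {e : Finset I}

/-- a conditional expectation as a quotient of averages -/
theorem ce_av [Nonempty V] (f : (I → V) → ℝ) (x : I → V) :
    ce L c e f x = av (fun y => f y * one (fun z => z ∈ cls L c e x) y) /
      av (one (fun z => z ∈ cls L c e x)) := by
  classical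
  have h1 : av (fun y => f y * one (fun z => z ∈ cls L c e x) y) =
      (∑ y ∈ cls L c e x, f y) / (Fintype.card (I → V) : ℝ) := by
    unfold av
    congr 1
    rw [← sum_filter_add_sum_filter_not univ (fun y => y ∈ cls L c e x)]
    rw [sum_eq_zero (s := univ.filter (fun y => ¬ y ∈ cls L c e x)), add_zero]
    · refine sum_congr (by ext y; simp) fun y hy => ?_
      rw [one_of (P := fun z => z ∈ cls L c e x) hy, mul_one]
    · intro y hy
      rw [one_not (P := fun z => z ∈ cls L c e x) (mem_filter.1 hy).2, mul_zero]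
  have h2 : av (one (fun z => z ∈ cls L c e x)) =
      ((cls L c e x).card : ℝ) / (Fintype.card (I → V) : ℝ) := by
    rw [av_one_card]
    congr 2
    congr 1
    ext y
    simp
  have h3 : (Fintype.card (I → V) : ℝ) ≠ 0 := ne_of_gt card_pos_fun
  rw [h1, h2, div_div_div_cancel_right₀ h3]
  rfl

theorem av_cls_pos [Nonempty V] (x : I → V) : 0 < av (one (fun z => z ∈ cls L c e x)) := by
  classical
  have h2 : av (one (fun z => z ∈ cls L c e x)) =
      ((cls L c e x).card : ℝ) / (Fintype.card (I → V) : ℝ) := by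
    rw [av_one_card]
    congr 2
    congr 1
    ext y
    simp
  rw [h2]
  exact div_pos (cls_card_pos x) card_pos_fun

/-- entropy gain from a family of covers -/
theorem gain_cover (hG : ST_GAIN) [Nonempty V] (hRef : Ref L c' c) (b : (I → V) → ℝ)
    (hb : ∀ x, 0 ≤ b x) (Cx : (I → V) → (I → V) → Prop) (Vl : (I → V) → Prop) (N : ℝ)
    (hN : 0 < N) (hCc : ∀ x, ∀ y ∈ cls L c e x, Cx y = Cx x)
    (hVc : ∀ x, ∀ y ∈ cls L c e x, (Vl y ↔ Vl x))
    (hCs : ∀ x y, Cx x y → y ∈ cls L c e x)
    (hCm : ∀ x, ∀ y ∈ cls L c' e x, (Cx x y ↔ Cx x x))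
    (hsp : ∀ x, av (fun y => b y * one (Cx x) y) ≤ ce L c e b x / 2 * av (one (Cx x)))
    (hbig : ∀ x, Vl x → av (one (fun z => z ∈ cls L c e x)) ≤ av (one (Cx x)) * N) :
    ent L c e b + (1 - Real.log 2) / 2 * (av (fun x => b x * one Vl x) / N) ≤
      ent L c' e b := by
  obtain ⟨χ, hχ⟩ : ∃ χ : (I → V) → ℝ, χ = one (fun x => Cx x x ∧ Vl x) := ⟨_, rfl⟩
  -- the values of χ on a class
  have hval : ∀ x, ∀ y ∈ cls L c e x, χ y = one (Cx x) y * one Vl x := by
    intro x y hy
    rw [hχ]
    by_cases hV : Vl x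
    · rw [one_of hV, mul_one]
      refine one_congr ?_
      rw [hCc x y hy]
      exact ⟨fun h => h.1, fun h => ⟨h, (hVc x y hy).2 hV⟩⟩
    · rw [one_not hV, mul_zero]
      exact one_not fun h => hV ((hVc x y hy).1 h.2)
  have hce : ∀ (f : (I → V) → ℝ) (x : I → V), ce L c e (fun y => f y * χ y) x =
      av (fun y => f y * one (Cx x) y) * one Vl x / av (one (fun z => z ∈ cls L c e x)) := by
    intro f x
    rw [ce_av, ← av_mul_right]
    congr 1
    refine av_congr fun y => ?_
    by_cases hy : y ∈ cls L c e x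
    · rw [one_of (P := fun z => z ∈ cls L c e x) hy, mul_one, hval x y hy, mul_assoc]
    · rw [one_not (P := fun z => z ∈ cls L c e x) hy, mul_zero,
        one_not (P := Cx x) (fun h => hy (hCs x y h)), mul_zero, zero_mul]
  have hce1 : ∀ x : I → V, ce L c e χ x =
      av (one (Cx x)) * one Vl x / av (one (fun z => z ∈ cls L c e x)) := by
    intro x
    have h1 := hce (fun _ => 1) x
    simp only [one_mul] at h1
    exact h1
  have h01 : ∀ x, χ x = 0 ∨ χ x = 1 := by
    intro x
    rw [hχ]
    unfold one
    split_ifs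
    · right; rfl
    · left; rfl
  have hmeas : ∀ x, ∀ y ∈ cls L c' e x, χ y = χ x := by
    intro x y hy
    have hy' := cls_ref hRef hy
    rw [hval x y hy', hval x x (self_mem_cls x)]
    congr 1
    exact one_congr (hCm x y hy)
  have hcond : ∀ x, ce L c e (fun y => b y * χ y) x ≤ ce L c e b x / 2 * ce L c e χ x := by
    intro x
    rw [hce b x, hce1 x, mul_div_assoc, mul_div_assoc, ← mul_assoc]
    exact mul_le_mul_of_nonneg_right (hsp x) (div_nonneg (one_nonneg _ _) (av_one_nonneg _))
  have key := hG I V L c c' e b χ hRef hb h01 hmeas hcond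
  refine le_trans ?_ key
  have hlog : 0 ≤ (1 - Real.log 2) / 2 := by
    have := Real.log_two_lt_d9
    norm_num at this ⊢
    linarith
  refine add_le_add le_rfl (mul_le_mul_of_nonneg_left ?_ hlog)
  have e1 : av (fun x => ce L c e b x * χ x) = av (fun x => ce L c e χ x * ce L c e b x) := by
    rw [av_ce_mul (L := L) (c := c) (T := e) (f := χ) (φ := ce L c e b)
      (fun x y hy => ce_eq b hy)]
    exact av_congr fun x => mul_comm _ _
  have e2 : av (fun x => b x * one Vl x) = av (fun x => ce L c e b x * one Vl x) := by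
    rw [av_ce_mul (L := L) (c := c) (T := e) (f := b) (φ := one Vl)]
    intro x y hy
    exact one_congr (hVc x y hy)
  rw [e1, e2, div_le_iff₀ hN, ← av_mul_right]
  refine av_mono fun x => ?_
  by_cases hV : Vl x
  · rw [one_of hV, mul_one, hce1 x, one_of hV, mul_one]
    have h1 := hbig x hV
    have h2 := av_cls_pos (L := L) (c := c) (e := e) x
    have h3 : 0 ≤ ce L c e b x := ce_nonneg hb x
    have h4 : 1 ≤ av (one (Cx x)) / av (one (fun z => z ∈ cls L c e x)) * N := by
      rw [div_mul_eq_mul_div, le_div_iff₀ h2, one_mul]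
      exact h1
    calc ce L c e b x = 1 * ce L c e b x := (one_mul _).symm
      _ ≤ (av (one (Cx x)) / av (one (fun z => z ∈ cls L c e x)) * N) * ce L c e b x :=
        mul_le_mul_of_nonneg_right h4 h3
      _ = _ := by ring
  · rw [one_not hV, mul_zero, hce1 x, one_not hV, mul_zero, zero_div, zero_mul, zero_mul]

end

end Pool.Helper85.RL
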