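import Pool.Agent.Helper85.RL.Setl
import Pool.Agent.Helper16.HR.Fin2

/-! MAINL and the final form. -/

set_option autoImplicit false

namespace Pool.Helper85.RL

open Finset Pool.Helper16.HR

theorem MAINL (RKH : ST_RKH) (RP0 : ST_RP0) (STEP : ST_STEP) (MONF : ST_MONF) (SETL : ST_SETL)
    (KERN : ST_KERN) (NUML : ST_NUML) (HYP : ST_HYP) : ST_MAINL := by
  intro l hl h k E hk hE hne hht m hm
  classical
  rcases Nat.lt_or_ge m 2 with hm2 | hm2
  · -- m = 1
    have hm1 : m = 1 := by omega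
    subst hm1
    intro n G hG _
    refine ⟨G, Finset.Subset.refl _, ?_, ?_⟩
    · have h1 : G ⊆ (univ : Finset (Fin n)).powersetCard k := by
        intro g hg
        rw [Finset.mem_powersetCard]
        exact ⟨Finset.subset_univ _, hG g hg⟩
      have h2 := Finset.card_le_card h1
      rw [Finset.card_powersetCard, Finset.card_univ, Fintype.card_fin] at h2
      have h3 := Nat.choose_le_pow n k
      rw [mul_one]
      exact le_trans h2 h3
    · rw [Finset.sdiff_self]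
      exact copies_nonneg_zero E hne
  · obtain ⟨j, rfl⟩ : ∃ j, l = j + 1 := ⟨l - 1, by omega⟩
    obtain ⟨K, L, rk, hK, hL, hrk, hEL, hcov, hq⟩ := RKH (Fin h) E hne (j + 1 + 1) hht
    rw [Fintype.card_fin] at hq
    have hinj : Set.InjOn (fun e : Finset (Fin h) => e \ K) (E : Set (Finset (Fin h))) := by
      intro e he f hf hef
      dsimp only at hef
      have h1 := Finset.sdiff_union_of_subset (hK e he)
      have h2 := Finset.sdiff_union_of_subset (hK f hf)
      rw [← h1, ← h2, hef]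
    have hcardE : (E.image (fun e => e \ K)).card = E.card := card_image_of_injOn hinj
    have hEc : ∀ e ∈ E.image (fun e => e \ K), e.card = k - K.card := by
      intro e he
      obtain ⟨f, hf, rfl⟩ := mem_image.1 he
      rw [card_sdiff_of_subset (hK f hf), hE f hf]
    set q := L.card with hqdef
    have hq1 : 1 ≤ q := by
      rw [hqdef]
      exact Finset.card_pos.mpr ⟨∅, hL.empty⟩
    set e := E.card with hedef
    have he1 : 1 ≤ e := Finset.card_pos.mpr hne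
    have he2 : e ≤ 2 ^ h := by
      have := Finset.card_le_univ E
      rw [Fintype.card_finset, Fintype.card_fin] at this
      exact this
    obtain ⟨M, hM⟩ : ∃ M, M = 2 ^ (14 + 6 * h) * m := ⟨_, rfl⟩
    have hpow : (1 : ℕ) ≤ 2 ^ (14 + 6 * h) := Nat.one_le_two_pow
    have hM2 : 2 ≤ M := by
      rw [hM]
      calc 2 ≤ m := hm2
        _ = 1 * m := (one_mul m).symm
        _ ≤ 2 ^ (14 + 6 * h) * m := Nat.mul_le_mul_right m hpow
    have hme : 1 ≤ m * e := Nat.one_le_iff_ne_zero.mpr (by positivity)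
    obtain ⟨W, hW⟩ : ∃ W, W = (fun M => GG q (Fq q j M))^[64 * e ^ 2 *
        Nat.clog 2 (2 * (m * e))] M := ⟨_, rfl⟩
    have hGge : id ≤ (fun M => GG q (Fq q j M)) := fun K => ((MONF q j).1 K).trans (GG_self _ _)
    have hMW : M ≤ W := by
      rw [hW]
      exact Function.id_le_iterate_of_id_le hGge _ M
    have hFv1 : 1 ≤ Fq q j W := Fq_pos MONF q j W (by omega)
    obtain ⟨θ, hθ⟩ : ∃ θ : ℝ, θ = 1 / (4 * (Fq q j W : ℝ) ^ (4 * q)) /
      (2 * ((m * e : ℕ) : ℝ)) := ⟨_, rfl⟩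
    have hnum := NUML j h m q e hm2 hq1 hq he1 he2 θ (by rw [hθ, hW, hM])
    have hmeR : (1 : ℝ) ≤ ((m * e : ℕ) : ℝ) := by exact_mod_cast hme
    have hFR : (1 : ℝ) ≤ (Fq q j W : ℝ) := by exact_mod_cast hFv1
    have hFRp : (1 : ℝ) ≤ (Fq q j W : ℝ) ^ (4 * q) := one_le_pow₀ hFR
    have hθ0 : 0 < θ := by rw [hθ]; positivity
    have hθ0' : (0 : ℝ) < 1 / (4 * (Fq q j W : ℝ) ^ (4 * q)) := by positivity
    have hθ1 : θ ≤ 1 := by
      rw [hθ, div_div]
      rw [div_le_one (by positivity)]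
      nlinarith
    refine HYP h k m _ E hne hE hk hm θ hθ0 hθ1 ?_ hnum.1 hnum.2
    intro n hn
    have : Nonempty (Fin n) := ⟨⟨0, by omega⟩⟩
    rw [hθ]
    refine KERN (Fin h) (Fin n) E K hK (m * E.card) _ hme hθ0' ?_
    have key := SETL (Fin h) (Fin n) L rk hL _ hEL (hne.image _) hcov (k - K.card) hEc j (Fq q j)
      (MONF q j).1 (MONF q j).2
      (fun rk' hL' => rp_all RP0 STEP MONF (Fin h) (Fin n) L rk' hL' j)
      (fun T hT => hrk T hT) (2 * (m * e)) M (by omega) hM2 (by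
        have h1 : q ^ 2 * e ≤ (2 ^ h) ^ 2 * 2 ^ h :=
          Nat.mul_le_mul (Nat.pow_le_pow_left hq 2) he2
        have h2 : 64 * ((2 ^ h) ^ 2 * 2 ^ h) ≤ 2 ^ (14 + 6 * h) := by
          have h3 : 64 * ((2 ^ h) ^ 2 * 2 ^ h) = 2 ^ (6 + 3 * h) := by
            rw [pow_add, ← pow_mul, ← pow_add]
            norm_num
            ring
          rw [h3]
          exact Nat.pow_le_pow_right (by norm_num) (by omega)
        calc 32 * q ^ 2 * (2 * (m * e)) = 64 * (q ^ 2 * e) * m := by ring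
          _ ≤ 64 * ((2 ^ h) ^ 2 * 2 ^ h) * m :=
            Nat.mul_le_mul_right m (Nat.mul_le_mul_left 64 h1)
          _ ≤ 2 ^ (14 + 6 * h) * m := Nat.mul_le_mul_right m h2
          _ = M := hM.symm)
    rw [hcardE, ← hW] at key
    exact key

theorem removal_emptyL (l h k m : ℕ) (hm : 2 ≤ m) :
    Removal (∅ : Finset (Finset (Fin h))) k m (Ack l (2 ^ (3 * h + 9) * Nat.clog 2 m)) := by
  intro n G _ hc
  refine ⟨∅, empty_subset _, by simp, ?_⟩
  rw [copies_empty_edges] at *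
  rw [Nat.descFactorial_eq_zero_iff_lt]
  by_contra hcon
  have hhn : h ≤ n := by omega
  have hcl : 1 ≤ Nat.clog 2 m := Nat.clog_pos (by norm_num) hm
  have h1 : h ^ h < Ack l (2 ^ (3 * h + 9) * Nat.clog 2 m) := by
    refine lt_of_lt_of_le ?_ (Ack_one_le l _)
    have h2 : h * h + 1 ≤ 2 ^ (3 * h + 9) * Nat.clog 2 m := by
      have h3 : h < 2 ^ h := Nat.lt_two_pow_self
      calc h * h + 1 ≤ 2 ^ h * 2 ^ h := by nlinarith
        _ = 2 ^ (h + h) := (pow_add _ _ _).symm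
        _ ≤ 2 ^ (3 * h + 9) := Nat.pow_le_pow_right (by norm_num) (by omega)
        _ = 2 ^ (3 * h + 9) * 1 := (mul_one _).symm
        _ ≤ _ := Nat.mul_le_mul_left _ hcl
    calc h ^ h ≤ (2 ^ h) ^ h := Nat.pow_le_pow_left Nat.lt_two_pow_self.le h
      _ = 2 ^ (h * h) := (pow_mul _ _ _).symm
      _ < 2 ^ (h * h + 1) := Nat.pow_lt_pow_right (by norm_num) (by omega)
      _ ≤ _ := Nat.pow_le_pow_right (by norm_num) h2
  have h2 := descFactorial_lower h n hhn
  have h3 : 1 ≤ n.descFactorial h := by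
    rw [Nat.one_le_iff_ne_zero]
    intro h0
    rw [Nat.descFactorial_eq_zero_iff_lt] at h0
    omega
  have h4 : n ^ h < n.descFactorial h * Ack l (2 ^ (3 * h + 9) * Nat.clog 2 m) := by
    calc n ^ h ≤ h ^ h * n.descFactorial h := h2
      _ < Ack l (2 ^ (3 * h + 9) * Nat.clog 2 m) * n.descFactorial h :=
          Nat.mul_lt_mul_of_pos_right h1 h3
      _ = _ := mul_comm _ _
  omega

theorem removal_allL (MAIN : ST_MAINL) (HT1 : ST_HT1) (HT2 : ST_HT2) (HT3 : ST_HT3) (l : ℕ)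
    (hl : 1 ≤ l) (h k : ℕ) (E : Finset (Finset (Fin h))) (hk : 1 ≤ k) (hE : ∀ e ∈ E, e.card = k)
    (hc : Cond E (l + 1)) (m : ℕ) (hm : 2 ≤ m) :
    Removal E k m (Ack l (2 ^ (3 * h + 9) * Nat.clog 2 m)) := by
  rcases E.eq_empty_or_nonempty with h0 | h0
  · subst h0
    exact removal_emptyL l h k m hm
  · have hh : HtLe E (l + 1) := by
      rcases hc with h1 | h1 | h1 | h1
      · exact h1
      · exact HT1 (Fin h) E k (l + 1) (by omega) hE h1
      · exact HT2 (Fin h) E (l + 1) h1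
      · exact HT3 (Fin h) E (l + 1) h1
    exact MAIN l hl h k E hk hE h0 hh m (by omega)

theorem final_formL (MAIN : ST_MAINL) (HT1 : ST_HT1) (HT2 : ST_HT2) (HT3 : ST_HT3) (l : ℕ)
    (hl : 1 ≤ l) (h k : ℕ) (E : Finset (Finset (Fin h))) (hk : 1 ≤ k) (hE : ∀ e ∈ E, e.card = k)
    (hc : Cond E (l + 1)) (ε : ℝ) (hε : 0 < ε) (hε1 : ε < 1) (n : ℕ)
    (G : Finset (Finset (Fin n))) (hG : ∀ g ∈ G, g.card = k)
    (hcop : ((Nat.card {φ : Fin h → Fin n //
        Function.Injective φ ∧ ∀ e ∈ E, e.image φ ∈ G} : ℕ) : ℝ) ≤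
      1 / (Ack l (2 ^ (3 * h + 9) * Nat.clog 2 ⌈1 / ε⌉₊) : ℝ) * (n : ℝ) ^ h) :
    ∃ D ⊆ G, (D.card : ℝ) ≤ ε * (n : ℝ) ^ k ∧
      ∀ φ : Fin h → Fin n, Function.Injective φ → ∃ e ∈ E, e.image φ ∉ G \ D := by
  set m := ⌈1 / ε⌉₊ with hm
  have h1 : 1 < 1 / ε := by
    rw [lt_div_iff₀ hε]
    linarith
  have hm1 : 1 / ε ≤ (m : ℝ) := Nat.le_ceil _
  have hm2 : 2 ≤ m := by
    have : (1 : ℝ) < m := lt_of_lt_of_le h1 hm1
    have : 1 < m := by exact_mod_cast this
    omega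
  have hR := removal_allL MAIN HT1 HT2 HT3 l hl h k E hk hE hc m hm2
  set X := Ack l (2 ^ (3 * h + 9) * Nat.clog 2 m) with hX
  have hXpos : 0 < X := lt_of_lt_of_le (by positivity) (Ack_one_le l _)
  have hXR : (0 : ℝ) < (X : ℝ) := by exact_mod_cast hXpos
  have hcop2 : copies E G * X ≤ n ^ h := by
    have h2 : ((copies E G : ℕ) : ℝ) ≤ 1 / (X : ℝ) * (n : ℝ) ^ h := hcop
    rw [one_div, inv_mul_eq_div, le_div_iff₀ hXR] at h2
    exact_mod_cast h2
  obtain ⟨D, hD, hDm, hD0⟩ := hR n G hG hcop2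
  refine ⟨D, hD, ?_, ?_⟩
  · have hmR : (0 : ℝ) < (m : ℝ) := by
      have : 0 < m := by omega
      exact_mod_cast this
    have h3 : (D.card : ℝ) * m ≤ (n : ℝ) ^ k := by exact_mod_cast hDm
    have h4 : (D.card : ℝ) * 1 ≤ (D.card : ℝ) * (ε * m) := by
      refine mul_le_mul_of_nonneg_left ?_ (Nat.cast_nonneg _)
      rw [div_le_iff₀ hε] at hm1
      linarith
    calc (D.card : ℝ) ≤ ε * ((D.card : ℝ) * m) := by linarith
      _ ≤ ε * (n : ℝ) ^ k := mul_le_mul_of_nonneg_left h3 hε.le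
  · intro φ hφ
    by_contra hcon
    push Not at hcon
    unfold copies at hD0
    rw [Nat.card_eq_zero] at hD0
    rcases hD0 with h5 | h5
    · exact h5.false ⟨φ, hφ, hcon⟩
    · exact absurd (inferInstance : Finite {φ : Fin h → Fin n // Function.Injective φ ∧
        ∀ e ∈ E, e.image φ ∈ G \ D}) (not_finite_iff_infinite.2 h5)

end Pool.Helper85.RL
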