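import Pool.Agent.Helper85.RL.Main
import Pool.Agent.Helper85.RL.Stmts3
import Pool.Agent.Helper83.HR.ACKB

/-! The final form with the core. -/

set_option autoImplicit false

namespace Pool.Helper85.RL

open Finset Pool.Helper16.HR

theorem removal_mono {h : ℕ} (E : Finset (Finset (Fin h))) (k m X Y : ℕ) (hXY : X ≤ Y)
    (hR : Removal E k m X) : Removal E k m Y := by
  intro n G hG hc
  exact hR n G hG (le_trans (Nat.mul_le_mul_left _ hXY) hc)

theorem removal_coreL (MAIN : ST_MAINL) (HT1 : ST_HT1) (HT2 : ST_HT2) (HT3 : ST_HT3)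
    (CORE : ST_CORE) (CNUM : ST_CNUM) (l : ℕ) (hl : 1 ≤ l) (h k : ℕ)
    (E E' : Finset (Finset (Fin h))) (f : Fin h → Fin h) (hk : 1 ≤ k)
    (hE : ∀ e ∈ E, e.card = k) (hE' : E' ⊆ E) (hf : ∀ e ∈ E, e.image f ∈ E')
    (hc : Cond E' (l + 1)) (m : ℕ) (hm : 2 ≤ m) :
    Removal E k m (Ack l (2 ^ (3 * h + 10) * Nat.clog 2 m)) := by
  have hcl : 1 ≤ Nat.clog 2 m := Nat.clog_pos (by norm_num) hm
  have hR := removal_allL MAIN HT1 HT2 HT3 l hl h k E' hk (fun e he => hE e (hE' he)) hc m hm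
  rcases E.eq_empty_or_nonempty with h0 | h0
  · have h1 : E' = E := by
      rw [h0] at hE' ⊢
      exact subset_empty.1 hE'
    rw [h1] at hR
    refine removal_mono E k m _ _ (ackb_mono l ?_) hR
    exact Nat.mul_le_mul_right _ (Nat.pow_le_pow_right (by norm_num) (by omega))
  · have hn := CNUM l h (Nat.clog 2 m) hl hcl
    refine CORE h k m _ _ E E' f h0 hE' hE hk hf ?_ hn.1 hn.2 hR
    exact le_trans Nat.one_le_two_pow (Ack_one_le l _)

theorem final_formC (MAIN : ST_MAINL) (HT1 : ST_HT1) (HT2 : ST_HT2) (HT3 : ST_HT3)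
    (CORE : ST_CORE) (CNUM : ST_CNUM) (l : ℕ)
    (hl : 1 ≤ l) (h k : ℕ) (E E' : Finset (Finset (Fin h))) (f : Fin h → Fin h) (hk : 1 ≤ k)
    (hE : ∀ e ∈ E, e.card = k) (hE' : E' ⊆ E) (hf : ∀ e ∈ E, e.image f ∈ E')
    (hc : Cond E' (l + 1)) (ε : ℝ) (hε : 0 < ε) (hε1 : ε < 1) (n : ℕ)
    (G : Finset (Finset (Fin n))) (hG : ∀ g ∈ G, g.card = k)
    (hcop : ((Nat.card {φ : Fin h → Fin n //
        Function.Injective φ ∧ ∀ e ∈ E, e.image φ ∈ G} : ℕ) : ℝ) ≤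
      1 / (Ack l (2 ^ (3 * h + 10) * Nat.clog 2 ⌈1 / ε⌉₊) : ℝ) * (n : ℝ) ^ h) :
    ∃ D ⊆ G, (D.card : ℝ) ≤ ε * (n : ℝ) ^ k ∧
      ∀ φ : Fin h → Fin n, Function.Injective φ → ∃ e ∈ E, e.image φ ∉ G \ D := by
  set m := ⌈1 / ε⌉₊ with hm
  have h1 : 1 < 1 / ε := by
    rw [lt_div_iff₀ hε]
    linarith
  have hm1 : 1 / ε ≤ (m : ℝ) := Nat.le_ceil _
  have hm2 : 2 ≤ m := by
    have : (1 : ℝ) < m := lt_of_lt_of_le h1 hm1
    have : 1 < m := by exact_mod_cast this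
    omega
  have hR := removal_coreL MAIN HT1 HT2 HT3 CORE CNUM l hl h k E E' f hk hE hE' hf hc m hm2
  set X := Ack l (2 ^ (3 * h + 10) * Nat.clog 2 m) with hX
  have hXpos : 0 < X := lt_of_lt_of_le (by positivity) (Ack_one_le l _)
  have hXR : (0 : ℝ) < (X : ℝ) := by exact_mod_cast hXpos
  have hcop2 : copies E G * X ≤ n ^ h := by
    have h2 : ((copies E G : ℕ) : ℝ) ≤ 1 / (X : ℝ) * (n : ℝ) ^ h := hcop
    rw [one_div, inv_mul_eq_div, le_div_iff₀ hXR] at h2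
    exact_mod_cast h2
  obtain ⟨D, hD, hDm, hD0⟩ := hR n G hG hcop2
  refine ⟨D, hD, ?_, ?_⟩
  · have hmR : (0 : ℝ) < (m : ℝ) := by
      have : 0 < m := by omega
      exact_mod_cast this
    have h3 : (D.card : ℝ) * m ≤ (n : ℝ) ^ k := by exact_mod_cast hDm
    have h4 : (D.card : ℝ) * 1 ≤ (D.card : ℝ) * (ε * m) := by
      refine mul_le_mul_of_nonneg_left ?_ (Nat.cast_nonneg _)
      rw [div_le_iff₀ hε] at hm1
      linarith
    calc (D.card : ℝ) ≤ ε * ((D.card : ℝ) * m) := by linarith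
      _ ≤ ε * (n : ℝ) ^ k := mul_le_mul_of_nonneg_left h3 hε.le
  · intro φ hφ
    by_contra hcon
    push Not at hcon
    unfold copies at hD0
    rw [Nat.card_eq_zero] at hD0
    rcases hD0 with h5 | h5
    · exact h5.false ⟨φ, hφ, hcon⟩
    · exact absurd (inferInstance : Finite {φ : Fin h → Fin n // Function.Injective φ ∧
        ∀ e ∈ E, e.image φ ∈ G \ D}) (not_finite_iff_infinite.2 h5)

end Pool.Helper85.RL
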