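import Pool.Agent.Helper85.RL.Bas
import Pool.Agent.Helper58.HR.SET

/-! ROUND: one round. -/

set_option autoImplicit false
set_option linter.unusedSectionVars false

namespace Pool.Helper85.RL

open Finset Pool.Helper16.HR

section

variable {I V : Type} [Fintype I] [DecidableEq I] [Fintype V]
variable {L : Finset (Finset I)} {c c' : Finset I → (I → V) → ℕ} {e : Finset I}

/-- the three parts of the exceptional set -/
theorem split3 [Nonempty V] (B Bd Vl : (I → V) → Prop) (α : ℝ) (hα : 0 ≤ α) :
    av (one (fun x => B x ∧ (Bd x ∨ ce L c e (one B) x < α ∨ Vl x))) ≤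
      av (one Bd) + α + av (fun x => one B x * one Vl x) := by
  have h1 : ∀ x, one (fun x => B x ∧ (Bd x ∨ ce L c e (one B) x < α ∨ Vl x)) x ≤
      (one Bd x + one B x * one (fun y => ce L c e (one B) y < α) x) + one B x * one Vl x := by
    intro x
    have a1 := one_nonneg Bd x
    have a2 : 0 ≤ one B x * one (fun y => ce L c e (one B) y < α) x :=
      mul_nonneg (one_nonneg _ _) (one_nonneg _ _)
    have a3 : 0 ≤ one B x * one Vl x := mul_nonneg (one_nonneg _ _) (one_nonneg _ _)
    by_cases h : B x ∧ (Bd x ∨ ce L c e (one B) x < α ∨ Vl x)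
    · rw [one_of (P := fun x => B x ∧ (Bd x ∨ ce L c e (one B) x < α ∨ Vl x)) h]
      obtain ⟨hB, h2 | h2 | h2⟩ := h
      · rw [one_of h2]
        linarith
      · rw [one_of hB, one_of (P := fun y => ce L c e (one B) y < α) h2] at *
        linarith
      · rw [one_of hB, one_of h2] at *
        linarith
    · rw [one_not (P := fun x => B x ∧ (Bd x ∨ ce L c e (one B) x < α ∨ Vl x)) h]
      linarith
  refine (av_mono h1).trans ?_
  rw [av_add, av_add]
  have h2 : av (fun x => one B x * one (fun y => ce L c e (one B) y < α) x) ≤ α := by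
    rw [← av_ce_mul (L := L) (c := c) (T := e) (f := one B)
      (φ := one (fun y => ce L c e (one B) y < α))
      (fun x y hy => one_congr (by rw [ce_eq _ hy]))]
    refine le_trans (av_mono (g := fun _ => α) fun x => ?_) (le_of_eq (av_const α))
    by_cases h : ce L c e (one B) x < α
    · rw [one_of (P := fun y => ce L c e (one B) y < α) h, mul_one]
      exact h.le
    · rw [one_not (P := fun y => ce L c e (one B) y < α) h, mul_zero]
      exact hα
  have h3 : av (one Bd) = av (fun x => one Bd x) := rfl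
  linarith

theorem bad_le [Nonempty V] (Bp : Finset I → (I → V) → Prop) (t : ℝ)
    (h : ∀ T ∈ L, av (one (Bp T)) ≤ t) :
    av (one (fun x => ∃ T ∈ L, T ⊆ e ∧ Bp T x)) ≤ L.card * t := by
  have h1 : ∀ x, one (fun x => ∃ T ∈ L, T ⊆ e ∧ Bp T x) x ≤ ∑ T ∈ L, one (Bp T) x := by
    intro x
    by_cases hx : ∃ T ∈ L, T ⊆ e ∧ Bp T x
    · rw [one_of (P := fun x => ∃ T ∈ L, T ⊆ e ∧ Bp T x) hx]
      obtain ⟨T, hT, _, hb⟩ := hx
      refine le_trans (le_of_eq (one_of hb).symm) ?_
      exact single_le_sum (f := fun T => one (Bp T) x) (fun T _ => one_nonneg _ _) hT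
    · rw [one_not (P := fun x => ∃ T ∈ L, T ⊆ e ∧ Bp T x) hx]
      exact sum_nonneg fun T _ => one_nonneg _ _
  refine (av_mono h1).trans ?_
  rw [av_sum]
  refine (sum_le_sum h).trans (le_of_eq ?_)
  rw [sum_const, nsmul_eq_mul]

end

/-- the numbers of one round -/
theorem round_num (q e m M : ℕ) (d : ℝ) (hq : 1 ≤ q) (he : 1 ≤ e) (heq : e ≤ q) (hm : 1 ≤ m)
    (hdm : 1 ≤ d * m) (hM : 32 * q ^ 2 * m ≤ M) :
    (e : ℝ) * (q * (2 / (M : ℝ) ^ 2)) ≤ d / 8 ∧ 2 ≤ d / (16 * e) * M ∧ 16 * e ≤ M := by
  have hm0 : (1 : ℝ) ≤ m := by exact_mod_cast hm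
  have he0 : (1 : ℝ) ≤ e := by exact_mod_cast he
  have hq0 : (1 : ℝ) ≤ q := by exact_mod_cast hq
  have heq' : (e : ℝ) ≤ q := by exact_mod_cast heq
  have hM' : 32 * (q : ℝ) ^ 2 * m ≤ M := by exact_mod_cast hM
  have hd0 : 0 < d := by
    by_contra h
    have : d * m ≤ 0 := mul_nonpos_of_nonpos_of_nonneg (not_lt.1 h) (by linarith)
    linarith
  have hM0 : (0 : ℝ) < M := lt_of_lt_of_le (by positivity) hM'
  have hM1 : (1 : ℝ) ≤ M := by nlinarith
  refine ⟨?_, ?_, ?_⟩
  · have h1 : (e : ℝ) * (q * (2 / (M : ℝ) ^ 2)) = 2 * (e * q) / (M : ℝ) ^ 2 := by ring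
    rw [h1, div_le_div_iff₀ (by positivity) (by norm_num)]
    have h2 : (e : ℝ) * q ≤ q ^ 2 := by nlinarith
    have h3 : 32 * (q : ℝ) ^ 2 ≤ d * M := by
      calc 32 * (q : ℝ) ^ 2 = 32 * (q : ℝ) ^ 2 * 1 := by ring
        _ ≤ 32 * (q : ℝ) ^ 2 * (d * m) := mul_le_mul_of_nonneg_left hdm (by positivity)
        _ = d * (32 * (q : ℝ) ^ 2 * m) := by ring
        _ ≤ d * M := mul_le_mul_of_nonneg_left hM' hd0.le
    have h4 : d * M ≤ d * (M : ℝ) ^ 2 := by
      refine mul_le_mul_of_nonneg_left ?_ hd0.le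
      nlinarith
    have h5 : 0 ≤ (q : ℝ) ^ 2 := by positivity
    linarith
  · rw [div_mul_eq_mul_div, le_div_iff₀ (by positivity)]
    have h3 : 32 * (q : ℝ) ^ 2 ≤ d * M := by
      calc 32 * (q : ℝ) ^ 2 = 32 * (q : ℝ) ^ 2 * 1 := by ring
        _ ≤ 32 * (q : ℝ) ^ 2 * (d * m) := mul_le_mul_of_nonneg_left hdm (by positivity)
        _ = d * (32 * (q : ℝ) ^ 2 * m) := by ring
        _ ≤ d * M := mul_le_mul_of_nonneg_left hM' hd0.le
    nlinarith
  · have h1 : e * 1 ≤ q ^ 2 * m := by
      refine Nat.mul_le_mul (heq.trans (Nat.le_self_pow (by norm_num) q)) hm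
    calc 16 * e ≤ 32 * (e * 1) := by omega
      _ ≤ 32 * (q ^ 2 * m) := Nat.mul_le_mul_left _ h1
      _ = 32 * q ^ 2 * m := by ring
      _ ≤ M := hM

theorem GG_mono (q : ℕ) : Monotone (GG q) := by
  intro a b hab
  unfold GG
  exact Nat.mul_le_mul hab (Nat.pow_le_pow_right (by norm_num)
    (Nat.mul_le_mul_left _ (Nat.pow_le_pow_left hab _)))

theorem GG_ge (q K : ℕ) (e : ℕ) (heq : e ≤ q) (_hK : 1 ≤ K) :
    K * 2 ^ (e * K ^ q * (4 * K ^ (4 * q))) ≤ GG q K := by
  unfold GG
  refine Nat.mul_le_mul_left _ (Nat.pow_le_pow_right (by norm_num) ?_)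
  calc e * K ^ q * (4 * K ^ (4 * q)) ≤ q * K ^ q * (4 * K ^ (4 * q)) :=
        Nat.mul_le_mul_right _ (Nat.mul_le_mul_right _ heq)
    _ = 4 * q * K ^ (5 * q) := by
        rw [show 5 * q = q + 4 * q by ring, pow_add]
        ring

theorem ROUND (hCOV : ST_COV) (hENC : ST_ENC) (hG : ST_GAIN) (hRA : ST_RA) (hBAD : ST_BAD) :
    ST_ROUND := by
  classical
  intro I V _ _ _ _ L rk hL E hEL hEne hmax hcov j F hRP hrk hrkE B d m hB hBd hm hdm hRob M
    hM2 hMq c0 hSys hc0
  obtain ⟨c, Ms, h1, h2, h3, h4, h5, h6, h7⟩ := hRP M hM2 c0 hSys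
  obtain ⟨q, hq⟩ : ∃ q, q = L.card := ⟨_, rfl⟩
  obtain ⟨K, hK⟩ : ∃ K, K = Ms 0 := ⟨_, rfl⟩
  have hq1 : 1 ≤ q := by rw [hq]; exact card_pos.2 ⟨∅, hL.empty⟩
  have he1 : 1 ≤ E.card := card_pos.2 hEne
  have heq : E.card ≤ q := by rw [hq]; exact card_le_card hEL
  have hMs : ∀ r, M ≤ Ms r := by
    intro r
    by_cases hr : j < r
    · rw [h2 r hr]
    · have := h1 r (j + 1) (by omega)
      rw [h2 (j + 1) (by omega)] at this
      exact this
  have hMs2 : ∀ r, 2 ≤ Ms r := fun r => le_trans hM2 (hMs r)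
  have hK2 : 2 ≤ K := by rw [hK]; exact hMs2 0
  have hK1 : 1 ≤ K := by omega
  have hK0 : (0 : ℝ) < K := by
    have : 0 < K := by omega
    exact_mod_cast this
  have hDep : ∀ U ∈ L, Dep U (c U) := fun U hU => (h6 U hU).1
  have hcE : ∀ e ∈ E, ∀ x, c e x = 0 := by
    intro e he x
    rw [h5 e (hEL he) (hrkE e he)]
    exact hc0 e he x
  have hcE' : ∀ e ∈ E, ∀ x y, c e x = c e y := fun e he x y => by
    rw [hcE e he x, hcE e he y]
  have hcK : ∀ T ∈ L, ∀ x, c T x < K := fun T hT x =>
    lt_of_lt_of_le ((h6 T hT).2 x) (by rw [hK]; exact h1 0 _ (Nat.zero_le _))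
  have hnum := round_num q E.card m M d hq1 he1 heq hm hdm (by rw [hq]; exact hMq)
  have hE0 : (1 : ℝ) ≤ E.card := by exact_mod_cast he1
  have hd0 : 0 < d := by
    by_contra h
    have h9 : (0 : ℝ) ≤ m := Nat.cast_nonneg _
    have : d * m ≤ 0 := mul_nonpos_of_nonpos_of_nonneg (not_lt.1 h) h9
    linarith
  -- regularity
  have hex : ∀ T : Finset I, ∃ D : ℕ → (I → V) → ℝ, T ∈ L → ∀ a : ℕ, Dep T (D a) ∧
      (∀ x, 0 ≤ D a x ∧ D a x ≤ 1) ∧
      av (fun x => (D a x - ce L c T (ind c T a) x) ^ 2) ≤ bet q (Ms (rk T)) ∧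
      Disc L T (fun x => ind c T a x - D a x) (eta q (Ms 0)) := by
    intro T
    by_cases hT : T ∈ L
    · by_cases hTE : T ∈ E
      · refine ⟨fun a => ind c T a, fun _ a => ⟨ind_dep (hDep T hT) a,
          fun x => ⟨ind_nonneg _ _, ind_le_one _ _⟩, ?_, ?_⟩⟩
        · have h8 : ∀ x, (ind c T a x - ce L c T (ind c T a) x) ^ 2 = 0 := by
            intro x
            have h9 : ce L c T (ind c T a) x = ind c T a x := by
              have h10 : ∀ y ∈ cls L c T x, ind c T a y = ind c T a x := by
                intro y _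
                unfold ind
                rw [hcE T hTE y, hcE T hTE x]
              unfold ce
              rw [sum_congr rfl h10, sum_const, nsmul_eq_mul, mul_comm, mul_div_assoc,
                div_self (ne_of_gt (cls_card_pos x)), mul_one]
            rw [h9, sub_self]
            norm_num
          rw [av_congr h8, av_const]
          unfold bet
          positivity
        · intro g _
          have h8 : ∀ x, (ind c T a x - ind c T a x) * ∏ U ∈ below L T, g U x = 0 := by
            intro x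
            rw [sub_self, zero_mul]
          rw [av_congr h8, av_const, abs_zero]
          unfold eta
          positivity
      · have h8 := h7 T hT (hrk T hT hTE)
        rw [← hq] at h8
        unfold Reg at h8
        choose D hD using h8
        exact ⟨D, fun _ => hD⟩
    · exact ⟨fun _ _ => 0, fun h => absurd h hT⟩
  choose D hD using hex
  have hgam : ∀ r, 0 < gam q (Ms r) := by
    intro r
    have : (0 : ℝ) < (Ms r : ℝ) := by
      have := hMs2 r
      have h0 : 0 < Ms r := by omega
      exact_mod_cast h0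
    unfold gam
    positivity
  have hdel : ∀ r, 0 < del (Ms r) := by
    intro r
    have : (0 : ℝ) < (Ms r : ℝ) := by
      have := hMs2 r
      have h0 : 0 < Ms r := by omega
      exact_mod_cast h0
    unfold del
    positivity
  obtain ⟨Bp, hBp⟩ : ∃ Bp : Finset I → (I → V) → Prop, Bp = fun T =>
    BadPt L c T (D T) (del (Ms (rk T))) (gam q (Ms (rk T))) := ⟨_, rfl⟩
  have hBad : ∀ T ∈ L, Dep T (Bp T) ∧ av (one (Bp T)) ≤ 2 / (M : ℝ) ^ 2 := by
    intro T hT
    have h8 := hBAD I V L c hDep T hT (Ms (rk T)) (h6 T hT).2 (D T) (bet q (Ms (rk T)))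
      (gam q (Ms (rk T))) (del (Ms (rk T))) (hgam _) (hdel _).le (fun a => (hD T hT a).2.2.1)
    rw [hBp]
    refine ⟨h8.1, le_trans ?_ (le_trans h8.2 (set_bad_num q (Ms (rk T)) M hM2 (hMs _)))⟩
    exact le_of_eq rfl
  -- classes
  obtain ⟨κ, hκ⟩ : ∃ κ : Finset I → (L → Fin K) → (I → V) → Prop, κ = fun e t y =>
    ∀ U : L, U.1 ∈ below L e → c U.1 y = (t U).val := ⟨_, rfl⟩
  obtain ⟨tt, htt⟩ : ∃ tt : Finset I → (I → V) → (L → Fin K), tt = fun e x U =>
    if U.1 ∈ below L e then ⟨c U.1 x, hcK U.1 U.2 x⟩ else ⟨0, by omega⟩ := ⟨_, rfl⟩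
  have hκt : ∀ e x y, κ e (tt e x) y ↔ ∀ U ∈ below L e, c U y = c U x := by
    intro e x y
    rw [hκ, htt]
    constructor
    · intro h U hU
      have h8 := h ⟨U, (mem_below.1 hU).1⟩ hU
      dsimp only at h8
      rw [if_pos hU] at h8
      exact h8
    · intro h U hU
      dsimp only
      rw [if_pos hU]
      exact h U.1 hU
  have hκc : ∀ e x y, κ e (tt e x) y ↔ y ∈ cls L c e x := fun e x y => by
    rw [hκt, mem_cls]
  have htc : ∀ e x y, y ∈ cls L c e x → tt e y = tt e x := by
    intro e x y hy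
    rw [mem_cls] at hy
    rw [htt]
    funext U
    dsimp only
    by_cases hU : U.1 ∈ below L e
    · rw [if_pos hU, if_pos hU]
      exact Fin.ext (hy U.1 hU)
    · rw [if_neg hU, if_neg hU]
  -- covers
  obtain ⟨ρ, hρ⟩ : ∃ ρ : Finset I → (L → Fin K) → ℝ, ρ = fun e t =>
    av (fun y => one (B e) y * one (κ e t) y) / av (one (κ e t)) / 2 := ⟨_, rfl⟩
  have hρc : ∀ e x, ρ e (tt e x) = ce L c e (one (B e)) x / 2 := by
    intro e x
    have h8 : κ e (tt e x) = fun z => z ∈ cls L c e x := funext fun y => propext (hκc e x y)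
    rw [hρ, ce_av]
    dsimp only
    rw [h8]
  obtain ⟨γ, hγ⟩ : ∃ γ : ℝ, γ = 1 / (4 * (K : ℝ) ^ (4 * q)) := ⟨_, rfl⟩
  have hγ0 : 0 < γ := by rw [hγ]; positivity
  have hcv := fun (e : Finset I) (t : L → Fin K) =>
    hCOV I V (below L e) (κ e t) (one (B e)) (ρ e t) γ hγ0
  choose n g hg1 hg2 hg3 hg4 using hcv
  obtain ⟨C, hC⟩ : ∃ C : Finset I → (L → Fin K) → (I → V) → Prop, C = fun e t y =>
    κ e t y ∧ ∃ i < n e t, ∀ U ∈ below L e, g e t i U y := ⟨_, rfl⟩
  have hn : ∀ e t, n e t ≤ 4 * K ^ (4 * q) := by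
    intro e t
    have h8 := hg2 e t
    rw [hγ, mul_one_div, div_le_one (by positivity)] at h8
    exact_mod_cast h8
  obtain ⟨Vl, hVl⟩ : ∃ Vl : Finset I → (I → V) → Prop, Vl = fun e x =>
    av (one (κ e (tt e x))) < av (one (C e (tt e x))) * (4 * E.card) := ⟨_, rfl⟩
  have hdepκ : ∀ e t, Dep e (κ e t) := by
    intro e t x y hxy
    rw [hκ]
    dsimp only
    apply propext
    constructor
    · intro h U hU
      rw [← hDep U.1 U.2 x y fun i hi => hxy i ((mem_below.1 hU).2.1 hi)]
      exact h U hU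
    · intro h U hU
      rw [hDep U.1 U.2 x y fun i hi => hxy i ((mem_below.1 hU).2.1 hi)]
      exact h U hU
  have hdepC : ∀ e t, Dep e (C e t) := by
    intro e t x y hxy
    rw [hC]
    dsimp only
    rw [hdepκ e t x y hxy]
    have h8 : ∀ i, (∀ U ∈ below L e, g e t i U x) ↔ (∀ U ∈ below L e, g e t i U y) := by
      intro i
      have h9 : ∀ U ∈ below L e, g e t i U x = g e t i U y := fun U hU =>
        hg1 e t i U hU x y fun i hi => hxy i ((mem_below.1 hU).2.1 hi)
      constructor
      · intro h U hU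
        rw [← h9 U hU]
        exact h U hU
      · intro h U hU
        rw [h9 U hU]
        exact h U hU
    simp only [h8]
  have hdept : ∀ e x y, (∀ i ∈ e, x i = y i) → tt e x = tt e y := by
    intro e x y hxy
    apply htc
    rw [mem_cls]
    intro U hU
    rw [mem_below] at hU
    exact hDep U hU.1 x y fun i hi => hxy i (hU.2.1 hi)
  have hdepV : ∀ e, Dep e (Vl e) := by
    intro e x y hxy
    rw [hVl]
    dsimp only
    rw [hdept e x y hxy]
  obtain ⟨α, hα⟩ : ∃ α : ℝ, α = d / (8 * E.card) := ⟨_, rfl⟩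
  have hα0 : 0 < α := by rw [hα]; positivity
  obtain ⟨R, hR⟩ : ∃ R : Finset I → (I → V) → Prop, R = fun e x =>
    (∃ T ∈ L, T ⊆ e ∧ Bp T x) ∨ ce L c e (one (B e)) x < α ∨ Vl e x := ⟨_, rfl⟩
  have hRdep : ∀ e ∈ E, Dep e (R e) := by
    intro e _ x y hxy
    rw [hR]
    dsimp only
    rw [ce_dep hDep _ x y hxy, hdepV e x y hxy]
    have h8 : (∃ T ∈ L, T ⊆ e ∧ Bp T x) ↔ (∃ T ∈ L, T ⊆ e ∧ Bp T y) := by
      constructor
      · rintro ⟨T, hT, hTe, hb⟩
        exact ⟨T, hT, hTe, by rw [← (hBad T hT).1 x y fun i hi => hxy i (hTe hi)]; exact hb⟩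
      · rintro ⟨T, hT, hTe, hb⟩
        exact ⟨T, hT, hTe, by rw [(hBad T hT).1 x y fun i hi => hxy i (hTe hi)]; exact hb⟩
    rw [propext h8]
  have hKF : K ≤ F M := by rw [hK]; exact h3
  have hBone : ∀ e ∈ E, av (one (B e)) ≤ 1 := fun e _ => av_one_le_one _
  have hdle : d ≤ 1 := by
    obtain ⟨e, he⟩ := hEne
    rw [← hBd e he]
    exact hBone e he
  by_cases hsum : ∑ e ∈ E, av (one (fun x => B e x ∧ R e x)) < d
  · -- the counting case
    left
    obtain ⟨x0, hx0⟩ := hRob R hRdep hsum
    have hnR : ∀ e ∈ E, ¬ R e x0 := fun e he => (hx0 e he).2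
    have hnb : ∀ T ∈ L, ¬ BadPt L c T (D T) (del (Ms (rk T))) (gam q (Ms (rk T))) x0 := by
      intro T hT hbad
      obtain ⟨e, he, hTe⟩ := hcov T hT
      refine hnR e he ?_
      rw [hR]
      left
      refine ⟨T, hT, hTe, ?_⟩
      rw [hBp]
      exact hbad
    have hlow : ∀ e ∈ E, α ≤ ce L c e (one (B e)) x0 := by
      intro e he
      by_contra h
      refine hnR e he ?_
      rw [hR]
      right; left
      exact not_le.1 h
    have hnV : ∀ e ∈ E, av (one (C e (tt e x0))) * (4 * E.card) ≤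
        av (one (κ e (tt e x0))) := by
      intro e he
      by_contra h
      refine hnR e he ?_
      rw [hR]
      right; right
      rw [hVl]
      exact not_le.1 h
    have hρ1 : α / 2 ≤ 1 := by
      have h8 : α ≤ d := by
        rw [hα, div_le_iff₀ (by positivity)]
        nlinarith
      linarith
    have key := hRA I V L rk hL E hEL hEne hmax c hDep hcE' Ms x0 (fun T => D T (c T x0)) h1 hMs2
      (fun T hT => ⟨(hD T hT _).1, (hD T hT _).2.1⟩)
      (fun T hT => by
        have := hnb T hT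
        unfold BadPt at this
        push Not at this
        exact this.1)
      (fun T hT => by
        have := hnb T hT
        unfold BadPt at this
        push Not at this
        rw [← hq]
        exact this.2)
      (fun T hT => by
        rw [← hq]
        exact (hD T hT _).2.2.2)
      (fun r => le_trans hnum.2.2 (hMs r)) (fun e => C e (tt e x0)) B
      (fun e _ => hdepC e _) hB
      (fun e _ x hx => by
        rw [hC] at hx
        exact (hκt e x0 x).1 hx.1)
      (α / 2) (by linarith) hρ1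
      (by
        have h8 := hnum.2.1
        have h9 : α / 2 = d / (16 * E.card) := by
          rw [hα, div_div]
          congr 1
          ring
        rw [h9]
        refine le_trans h8 (mul_le_mul_of_nonneg_left ?_ (by positivity))
        exact_mod_cast hMs 0)
      (fun e he => by
        have h8 := hnV e he
        have h9 : av (one (κ e (tt e x0))) =
            av (one (fun x => ∀ U ∈ below L e, c U x = c U x0)) :=
          av_one_congr fun x => hκt e x0 x
        rw [h9] at h8
        exact h8)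
      (by
        intro e he s hs hle
        have h8 := hg4 e (tt e x0) s hs
        have h9 : av (one (fun y => κ e (tt e x0) y ∧
            (¬ ∃ i < n e (tt e x0), ∀ U ∈ below L e, g e (tt e x0) i U y) ∧
            ∀ U ∈ below L e, s U y)) =
            av (one (fun x => (∀ U ∈ below L e, c U x = c U x0) ∧ ¬ C e (tt e x0) x ∧
              ∀ U ∈ below L e, s U x)) := by
          refine av_one_congr fun x => ?_
          rw [hκt, hC]
          dsimp only
          rw [hκt]
          constructor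
          · rintro ⟨a1, a2, a3⟩
            exact ⟨a1, fun a4 => a2 a4.2, a3⟩
          · rintro ⟨a1, a2, a3⟩
            exact ⟨a1, fun a4 => a2 ⟨a1, a4⟩, a3⟩
        have h10 : av (fun x => one (B e) x * one (fun y => κ e (tt e x0) y ∧
            (¬ ∃ i < n e (tt e x0), ∀ U ∈ below L e, g e (tt e x0) i U y) ∧
            ∀ U ∈ below L e, s U y) x) =
            av (one (fun x => B e x ∧ (∀ U ∈ below L e, c U x = c U x0) ∧
              ¬ C e (tt e x0) x ∧ ∀ U ∈ below L e, s U x)) := by
          refine av_congr fun x => ?_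
          rw [one_mul_one]
          refine one_congr ?_
          rw [hκt, hC]
          dsimp only
          rw [hκt]
          constructor
          · rintro ⟨a0, a1, a2, a3⟩
            exact ⟨a0, a1, fun a4 => a2 a4.2, a3⟩
          · rintro ⟨a0, a1, a2, a3⟩
            exact ⟨a0, a1, fun a4 => a2 ⟨a1, a4⟩, a3⟩
        rw [h9, h10] at h8
        have h11 := h8 (by
          rw [hγ, hK, hq]
          exact hle)
        refine le_trans (mul_le_mul_of_nonneg_right ?_ (av_one_nonneg _)) h11
        rw [hρc]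
        have := hlow e he
        linarith)
    refine le_trans ?_ key
    rw [← hq, ← hK]
    apply one_div_le_one_div_of_le (by positivity)
    apply mul_le_mul_of_nonneg_left _ (by norm_num)
    apply pow_le_pow_left₀ hK0.le
    exact_mod_cast hKF
  · -- the gain case
    right
    have hEb : ∀ e ∈ E, ∀ U ∈ below L e, U ∉ E := by
      intro e he U hU hUE
      have h8 := mem_below.1 hU
      have h9 := hmax U hUE e (hEL he) h8.2.1
      rw [h9] at h8
      exact h8.2.2 (Subset.refl _)
    obtain ⟨c', h8, h9, h10, h11⟩ := hENC I V L E c K (4 * K ^ (4 * q)) hK1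
      (fun T hT => ⟨hDep T hT, hcK T hT⟩) hcE hEb g (fun e _ t i => hg1 e t i)
    refine ⟨c', ?_, h10, ?_⟩
    · refine h8.mono ?_
      rw [← hq]
      exact (GG_ge q K E.card heq hK1).trans (GG_mono q hKF)
    -- the first refinement does not decrease the entropy
    have hent0 : ∀ e ∈ E, ent L c0 e (one (B e)) ≤ ent L c e (one (B e)) := by
      intro e _
      have h12 := hG I V L c0 c e (one (B e)) (fun _ => 0) h4 (fun x => one_nonneg _ _)
        (fun _ => Or.inl rfl) (fun _ _ _ => rfl) (fun x => by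
          have h13 : ∀ (x : I → V), ce L c0 e (fun _ => (0 : ℝ)) x = 0 := by
            intro x
            unfold ce
            rw [sum_const_zero, zero_div]
          have h14 : (fun y => one (B e) y * (0 : ℝ)) = fun _ => (0 : ℝ) := by
            funext y
            rw [mul_zero]
          rw [h14, h13, mul_zero])
      have h15 : av (fun x => ce L c0 e (one (B e)) x * (0 : ℝ)) = 0 := by
        rw [av_congr (fun x => mul_zero _), av_const]
      rw [h15, mul_zero, add_zero] at h12
      exact h12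
    have hgain : ∀ e ∈ E, ent L c e (one (B e)) + (1 - Real.log 2) / 2 *
        (av (fun x => one (B e) x * one (Vl e) x) / (4 * E.card)) ≤
        ent L c' e (one (B e)) := by
      intro e he
      refine gain_cover hG h9 (one (B e)) (fun x => one_nonneg _ _)
        (fun x => C e (tt e x)) (Vl e) (4 * E.card) (by positivity) ?_ ?_ ?_ ?_ ?_ ?_
      · intro x y hy
        rw [htc e x y hy]
      · intro x y hy
        rw [hVl]
        dsimp only
        rw [htc e x y hy]
      · intro x y hxy
        rw [hC] at hxy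
        exact (hκc e x y).1 hxy.1
      · intro x y hy
        have hy' := cls_ref h9 hy
        rw [hC]
        dsimp only
        have h12 : κ e (tt e x) y ↔ κ e (tt e x) x := by
          rw [hκc, hκc]
          exact ⟨fun _ => self_mem_cls x, fun _ => hy'⟩
        have h13 : (∃ i < n e (tt e x), ∀ U ∈ below L e, g e (tt e x) i U y) ↔
            (∃ i < n e (tt e x), ∀ U ∈ below L e, g e (tt e x) i U x) := by
          have h14 : ∀ i < n e (tt e x), ∀ U ∈ below L e,
              (g e (tt e x) i U y ↔ g e (tt e x) i U x) := by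
            intro i hi U hU
            exact h11 e he U hU y x ((mem_cls.1 hy) U hU) _ i (lt_of_lt_of_le hi (hn e _))
          constructor
          · rintro ⟨i, hi, h15⟩
            exact ⟨i, hi, fun U hU => (h14 i hi U hU).1 (h15 U hU)⟩
          · rintro ⟨i, hi, h15⟩
            exact ⟨i, hi, fun U hU => (h14 i hi U hU).2 (h15 U hU)⟩
        rw [h12, h13]
      · intro x
        have h12 := hg3 e (tt e x)
        rw [hρc] at h12
        rw [hC]
        exact h12
      · intro x hx
        rw [hVl] at hx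
        have h12 : av (one (κ e (tt e x))) = av (one (fun z => z ∈ cls L c e x)) :=
          av_one_congr fun y => hκc e x y
        rw [h12] at hx
        exact hx.le
    have hsp : ∀ e ∈ E, av (one (fun x => B e x ∧ R e x)) ≤
        q * (2 / (M : ℝ) ^ 2) + α + av (fun x => one (B e) x * one (Vl e) x) := by
      intro e he
      rw [hR]
      refine (split3 (L := L) (c := c) (e := e) (B e) (fun x => ∃ T ∈ L, T ⊆ e ∧ Bp T x) (Vl e)
        α hα0.le).trans ?_
      have h12 := bad_le (L := L) (e := e) Bp (2 / (M : ℝ) ^ 2) (fun T hT => (hBad T hT).2)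
      rw [← hq] at h12
      linarith
    have hS : d ≤ E.card * (q * (2 / (M : ℝ) ^ 2)) + E.card * α +
        ∑ e ∈ E, av (fun x => one (B e) x * one (Vl e) x) := by
      refine (not_lt.1 hsum).trans ((sum_le_sum hsp).trans (le_of_eq ?_))
      rw [sum_add_distrib, sum_add_distrib, sum_const, sum_const, nsmul_eq_mul, nsmul_eq_mul]
    have hEα : (E.card : ℝ) * α = d / 8 := by
      rw [hα]
      field_simp
    obtain ⟨Sv, hSv⟩ : ∃ Sv, Sv = ∑ e ∈ E, av (fun x => one (B e) x * one (Vl e) x) :=
      ⟨_, rfl⟩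
    have hSv2 : 3 / 4 * d ≤ Sv := by
      rw [hSv]
      linarith [hnum.1]
    have h16 : ∑ e ∈ E, ent L c0 e (one (B e)) ≤ ∑ e ∈ E, ent L c e (one (B e)) :=
      sum_le_sum hent0
    have h17 : ∑ e ∈ E, ent L c e (one (B e)) + (1 - Real.log 2) / 2 *
        (Sv / (4 * E.card)) ≤ ∑ e ∈ E, ent L c' e (one (B e)) := by
      refine le_trans (le_of_eq ?_) (sum_le_sum hgain)
      rw [sum_add_distrib, ← mul_sum, ← sum_div, hSv]
    have h18 : d / (64 * E.card) ≤ (1 - Real.log 2) / 2 * (Sv / (4 * E.card)) := by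
      have h19 : (1 : ℝ) / 4 ≤ 1 - Real.log 2 := by
        have := Real.log_two_lt_d9
        norm_num at this ⊢
        linarith
      have h20 : 3 / 4 * d / (4 * E.card) ≤ Sv / (4 * E.card) :=
        div_le_div_of_nonneg_right hSv2 (by positivity)
      calc d / (64 * E.card) ≤ 1 / 4 / 2 * (3 / 4 * d / (4 * E.card)) := by
            rw [div_le_iff₀ (by positivity)]
            have h21 : (1 : ℝ) / 4 / 2 * (3 / 4 * d / (4 * E.card)) * (64 * E.card) =
                3 / 2 * d := by
              field_simp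
              ring
            rw [h21]
            linarith
        _ ≤ _ := mul_le_mul (by linarith) h20 (by positivity) (by linarith)
    linarith

end Pool.Helper85.RL
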