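import Pool.Agent.Helper85.RL.Round

/-! SETL: removal for set systems. -/

set_option autoImplicit false
set_option linter.unusedSectionVars false

namespace Pool.Helper85.RL

open Finset Pool.Helper16.HR

theorem GG_self (q K : ℕ) : K ≤ GG q K := by
  unfold GG
  exact Nat.le_mul_of_pos_right _ (Nat.two_pow_pos _)

theorem SETL (hR : ST_ROUND) (hP : ST_PACK) (hEB : ST_ENTB) : ST_SETL := by
  classical
  intro I V _ _ _ _ L rk hL E hEL hEne hcov k hk j F hFge hFmono hRP hrk m M hm hM2 hMq B hBd
  obtain ⟨B', d, hB'd, hB'B, hav, hhit, hrob⟩ := hP I V E k hEne hk B hBd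
  have hm0 : (0 : ℝ) < m := by
    have : 0 < m := by omega
    exact_mod_cast this
  by_cases hdm : d ≤ 1 / m
  · right
    refine ⟨B', hB'd, fun e he => ?_, hhit⟩
    refine le_trans (le_of_eq ?_) ((hav e he).le.trans hdm)
    exact av_congr fun x => by
      by_cases h : B' e x
      · rw [if_pos h, one_of h]
      · rw [if_neg h, one_not h]
  · left
    have hdm1 : 1 / (m : ℝ) < d := not_le.1 hdm
    have hd0 : 0 < d := lt_trans (by positivity) hdm1
    have hdm2 : 1 ≤ d * m := by
      rw [div_lt_iff₀ hm0] at hdm1
      exact hdm1.le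
    -- the edges are maximal
    have hmax : ∀ e ∈ E, ∀ T ∈ L, e ⊆ T → T = e := by
      intro e he T hT heT
      obtain ⟨e', he', hTe'⟩ := hcov T hT
      have h1 : e = e' := eq_of_subset_of_card_le (heT.trans hTe') (by rw [hk e he, hk e' he'])
      rw [← h1] at hTe'
      exact Subset.antisymm hTe' heT
    obtain ⟨rk', hrk'⟩ : ∃ rk' : Finset I → ℕ, rk' = fun T => if T ∈ E then j + 2 else rk T :=
      ⟨_, rfl⟩
    have hnE : ∀ S T, S ∈ L → T ∈ L → S ⊂ T → S ∉ E := by
      intro S T _ hT hST hSE
      have h1 := hmax S hSE T hT hST.1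
      rw [h1] at hST
      exact hST.2 (Subset.refl _)
    have hr1 : ∀ T ∈ L, T ∉ E → rk' T = rk T := by
      intro T _ hTE
      rw [hrk']
      simp only [if_neg hTE]
    have hr2 : ∀ T ∈ E, rk' T = j + 2 := by
      intro T hTE
      rw [hrk']
      simp only [if_pos hTE]
    have hr3 : ∀ T ∈ L, T ∉ E → rk' T ≤ j + 1 := by
      intro T hT hTE
      rw [hr1 T hT hTE]
      obtain ⟨e, he, hTe⟩ := hcov T hT
      have h1 : T ⊂ e := by
        refine ssubset_of_subset_of_ne hTe ?_
        rintro rfl
        exact hTE he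
      have h2 := hL.mono T hT e (hEL he) h1
      have h3 := hrk e (hEL he)
      omega
    have hL' : Lat L rk' := by
      refine ⟨hL.empty, hL.inter, ?_, ?_⟩
      · intro S hS T hT hST
        have h1 := hnE S T hS hT hST
        rw [hr1 S hS h1]
        by_cases hTE : T ∈ E
        · rw [hr2 T hTE]
          have h2 := hL.mono S hS T hT hST
          have h3 := hrk T hT
          omega
        · rw [hr1 T hT hTE]
          exact hL.mono S hS T hT hST
      · intro T hT h0
        by_cases hTE : T ∈ E
        · rw [hr2 T hTE] at h0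
          omega
        · rw [hr1 T hT hTE] at h0
          exact hL.pos T hT h0
    obtain ⟨q, hq⟩ : ∃ q, q = L.card := ⟨_, rfl⟩
    obtain ⟨G, hG⟩ : ∃ G : ℕ → ℕ, G = fun M => GG L.card (F M) := ⟨_, rfl⟩
    have hGge : id ≤ G := fun K => by
      rw [hG]
      exact (hFge K).trans (GG_self _ _)
    have hMn : ∀ n, M ≤ G^[n] M := fun n => Function.id_le_iterate_of_id_le hGge n M
    obtain ⟨N, hN⟩ : ∃ N, N = 64 * E.card ^ 2 * Nat.clog 2 m := ⟨_, rfl⟩
    rw [← hG, ← hN, ← hq]
    have hpos : ∀ K : ℕ, M ≤ K → (0 : ℝ) < (F K : ℝ) := by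
      intro K hK
      have h1 : 0 < F K := by
        have := hFge K
        omega
      exact_mod_cast h1
    have hfinal : 1 / (4 * (F (G^[N] M) : ℝ) ^ (4 * q)) ≤
        av (one (fun x => ∀ e ∈ E, B' e x)) := by
      by_contra hcon
      have hstep : ∀ n, n ≤ N → ∃ c : Finset I → (I → V) → ℕ, Sys L c (G^[n] M) ∧
          (∀ e ∈ E, ∀ x, c e x = 0) ∧
          ∑ e ∈ E, ent L (fun _ _ => 0) e (one (B' e)) + n * (d / (64 * E.card)) ≤
            ∑ e ∈ E, ent L c e (one (B' e)) := by
        intro n
        induction n with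
        | zero =>
          intro _
          refine ⟨fun _ _ => 0, fun T _ => ⟨fun _ _ _ => rfl, fun _ => ?_⟩, fun _ _ _ => rfl, ?_⟩
          · show 0 < M
            omega
          · rw [Nat.cast_zero, zero_mul, add_zero]
        | succ n ih =>
          intro hn
          obtain ⟨c, hc1, hc2, hc3⟩ := ih (by omega)
          rcases hR I V L rk' hL' E hEL hEne hmax hcov j F (hRP rk' hL') hr3
            (fun e he => by rw [hr2 e he]; omega) B' d m hB'd hav (by omega) hdm2 hrob (G^[n] M)
            (hM2.trans (hMn n)) (hMq.trans (hMn n)) c hc1 hc2 with h1 | ⟨c', h1, h2, h3⟩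
          · exfalso
            apply hcon
            refine le_trans ?_ h1
            rw [← hq]
            have h4 : G^[n] M ≤ G^[N] M := Function.monotone_iterate_of_id_le hGge (by omega) M
            refine one_div_le_one_div_of_le ?_ ?_
            · have := hpos _ (hMn n)
              positivity
            · refine mul_le_mul_of_nonneg_left ?_ (by norm_num)
              refine pow_le_pow_left₀ (Nat.cast_nonneg _) ?_ _
              exact_mod_cast hFmono h4
          · refine ⟨c', ?_, h2, ?_⟩
            · rw [Function.iterate_succ_apply', hG]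
              rw [hG] at h1
              exact h1
            · push_cast
              rw [add_mul, one_mul]
              linarith
      obtain ⟨c, _, _, hc3⟩ := hstep N le_rfl
      have hup : ∑ e ∈ E, ent L c e (one (B' e)) ≤ 0 := by
        refine sum_nonpos fun e _ => ?_
        exact (hEB I V L c e (one (B' e)) fun x => ⟨one_nonneg _ _, one_le_one _ _⟩).1
      have hlo : (E.card : ℝ) * (d * Real.log d) ≤
          ∑ e ∈ E, ent L (fun _ _ => 0) e (one (B' e)) := by
        rw [← nsmul_eq_mul, ← sum_const]
        refine sum_le_sum fun e he => ?_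
        have h1 := (hEB I V L (fun _ _ => 0) e (one (B' e))
          fun x => ⟨one_nonneg _ _, one_le_one _ _⟩).2
        rw [hav e he] at h1
        exact h1 hd0
      have hE0 : (0 : ℝ) < E.card := by
        have : 0 < E.card := card_pos.2 hEne
        exact_mod_cast this
      have hNr : (N : ℝ) * (d / (64 * E.card)) = E.card * (d * (Nat.clog 2 m : ℝ)) := by
        rw [hN]
        push_cast
        field_simp
      have h1 : (E.card : ℝ) * (d * (Real.log d + (Nat.clog 2 m : ℝ))) ≤ 0 := by
        have h2 : (E.card : ℝ) * (d * (Real.log d + (Nat.clog 2 m : ℝ))) =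
            E.card * (d * Real.log d) + E.card * (d * (Nat.clog 2 m : ℝ)) := by ring
        rw [h2, ← hNr]
        linarith
      have h2 : 0 < Real.log d + (Nat.clog 2 m : ℝ) := by
        have h3 : Real.log (1 / m) < Real.log d := Real.log_lt_log (by positivity) hdm1
        rw [one_div, Real.log_inv] at h3
        have h4 : (m : ℝ) ≤ 2 ^ (Nat.clog 2 m) := by
          exact_mod_cast Nat.le_pow_clog (by norm_num) m
        have h5 : Real.log m ≤ Nat.clog 2 m * Real.log 2 := by
          rw [← Real.log_pow]
          exact Real.log_le_log hm0 h4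
        have h6 : Real.log 2 ≤ 1 := by
          have := Real.log_two_lt_d9
          linarith
        have h7 : (Nat.clog 2 m : ℝ) * Real.log 2 ≤ Nat.clog 2 m * 1 :=
          mul_le_mul_of_nonneg_left h6 (Nat.cast_nonneg _)
        linarith
      have h3 : 0 < (E.card : ℝ) * (d * (Real.log d + (Nat.clog 2 m : ℝ))) :=
        mul_pos hE0 (mul_pos hd0 h2)
      linarith
    refine hfinal.trans (av_mono fun x => ?_)
    by_cases h : ∀ e ∈ E, B' e x
    · rw [one_of (P := fun x => ∀ e ∈ E, B' e x) h]
      refine le_of_eq (prod_eq_one fun e he => ?_).symm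
      rw [if_pos (hB'B e he x (h e he))]
    · rw [one_not (P := fun x => ∀ e ∈ E, B' e x) h]
      exact prod_nonneg fun e _ => by split_ifs <;> norm_num

end Pool.Helper85.RL
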