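import Pool.Agent.Helper85.RL.Stmts

/-! Hypergraph removal with a logarithm inside: statements of the modules, part 2. -/

set_option autoImplicit false

namespace Pool.Helper85.RL

open Finset Pool.Helper16.HR

/-- ENC: a refined system which knows the sets `g e t i U`. -/
def ST_ENC : Prop := ∀ (I V : Type) [Fintype I] [DecidableEq I] [Fintype V] [Nonempty V]
  (L E : Finset (Finset I)) (c : Finset I → (I → V) → ℕ) (K N : ℕ), 1 ≤ K → Sys L c K →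
  (∀ e ∈ E, ∀ x, c e x = 0) → (∀ e ∈ E, ∀ U ∈ below L e, U ∉ E) →
  ∀ g : Finset I → (L → Fin K) → ℕ → Finset I → (I → V) → Prop,
  (∀ e ∈ E, ∀ t i, ∀ U ∈ below L e, Dep U (g e t i U)) →
  ∃ c' : Finset I → (I → V) → ℕ, Sys L c' (K * 2 ^ (E.card * K ^ L.card * N)) ∧ Ref L c' c ∧
    (∀ e ∈ E, ∀ x, c' e x = 0) ∧
    ∀ e ∈ E, ∀ U ∈ below L e, ∀ x y, c' U x = c' U y → ∀ t, ∀ i < N,
      (g e t i U x ↔ g e t i U y)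

/-- RA: counting for a pattern whose covers are small. -/
def ST_RA : Prop := ∀ (I V : Type) [Fintype I] [DecidableEq I] [Fintype V] [Nonempty V]
  (L : Finset (Finset I)) (rk : Finset I → ℕ), Lat L rk → ∀ E : Finset (Finset I), E ⊆ L →
  E.Nonempty → (∀ e ∈ E, ∀ T ∈ L, e ⊆ T → T = e) →
  ∀ (c : Finset I → (I → V) → ℕ), (∀ U ∈ L, Dep U (c U)) → (∀ e ∈ E, ∀ x y, c e x = c e y) →
  ∀ (Ms : ℕ → ℕ) (x0 : I → V) (D : Finset I → (I → V) → ℝ),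
  (∀ r s, r ≤ s → Ms s ≤ Ms r) → (∀ r, 2 ≤ Ms r) →
  (∀ T ∈ L, Dep T (D T) ∧ ∀ x, 0 ≤ D T x ∧ D T x ≤ 1) →
  (∀ T ∈ L, del (Ms (rk T)) ≤ ce L c T (ind c T (c T x0)) x0) →
  (∀ T ∈ L, ∑ y ∈ cls L c T x0, (D T y - ce L c T (ind c T (c T x0)) x0) ^ 2 ≤
    gam L.card (Ms (rk T)) ^ 2 * ((cls L c T x0).card : ℝ)) →
  (∀ T ∈ L, Disc L T (fun x => ind c T (c T x0) x - D T x) (eta L.card (Ms 0))) →
  (∀ r, 16 * E.card ≤ Ms r) →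
  ∀ (C B : Finset I → (I → V) → Prop), (∀ e ∈ E, Dep e (C e)) → (∀ e ∈ E, Dep e (B e)) →
  (∀ e ∈ E, ∀ x, C e x → ∀ U ∈ below L e, c U x = c U x0) →
  ∀ ρ : ℝ, 0 ≤ ρ → ρ ≤ 1 → 2 ≤ ρ * (Ms 0 : ℝ) →
  (∀ e ∈ E, av (one (C e)) * (4 * E.card) ≤
    av (one (fun x => ∀ U ∈ below L e, c U x = c U x0))) →
  (∀ e ∈ E, ∀ s : Finset I → (I → V) → Prop, (∀ U ∈ below L e, Dep U (s U)) →
    1 / (4 * (Ms 0 : ℝ) ^ (4 * L.card)) ≤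
      av (one (fun x => (∀ U ∈ below L e, c U x = c U x0) ∧ ¬ C e x ∧
      ∀ U ∈ below L e, s U x)) →
    ρ * av (one (fun x => (∀ U ∈ below L e, c U x = c U x0) ∧ ¬ C e x ∧
      ∀ U ∈ below L e, s U x)) ≤
    av (one (fun x => B e x ∧ (∀ U ∈ below L e, c U x = c U x0) ∧ ¬ C e x ∧
      ∀ U ∈ below L e, s U x))) →
  1 / (4 * (Ms 0 : ℝ) ^ (4 * L.card)) ≤ av (one (fun x => ∀ e ∈ E, B e x))

/-- the number of colours after one round -/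
def GG (q K : ℕ) : ℕ := K * 2 ^ (4 * q * K ^ (5 * q))

/-- ROUND: one round. -/
def ST_ROUND : Prop := ∀ (I V : Type) [Fintype I] [DecidableEq I] [Fintype V] [Nonempty V]
  (L : Finset (Finset I)) (rk : Finset I → ℕ), Lat L rk → ∀ E : Finset (Finset I), E ⊆ L →
  E.Nonempty → (∀ e ∈ E, ∀ T ∈ L, e ⊆ T → T = e) → (∀ T ∈ L, ∃ e ∈ E, T ⊆ e) →
  ∀ (j : ℕ) (F : ℕ → ℕ), RP V L rk j F → (∀ T ∈ L, T ∉ E → rk T ≤ j + 1) →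
  (∀ e ∈ E, j < rk e) →
  ∀ (B : Finset I → (I → V) → Prop) (d : ℝ) (m : ℕ), (∀ e ∈ E, Dep e (B e)) →
  (∀ e ∈ E, av (one (B e)) = d) → 1 ≤ m → 1 ≤ d * m →
  (∀ R : Finset I → (I → V) → Prop, (∀ e ∈ E, Dep e (R e)) →
      ∑ e ∈ E, av (one (fun x => B e x ∧ R e x)) < d → ∃ x0, ∀ e ∈ E, B e x0 ∧ ¬ R e x0) →
  ∀ M : ℕ, 2 ≤ M → 32 * L.card ^ 2 * m ≤ M → ∀ c : Finset I → (I → V) → ℕ, Sys L c M →
  (∀ e ∈ E, ∀ x, c e x = 0) →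
  1 / (4 * (F M : ℝ) ^ (4 * L.card)) ≤ av (one (fun x => ∀ e ∈ E, B e x)) ∨
  ∃ c' : Finset I → (I → V) → ℕ, Sys L c' (GG L.card (F M)) ∧ (∀ e ∈ E, ∀ x, c' e x = 0) ∧
    ∑ e ∈ E, ent L c e (one (B e)) + d / (64 * E.card) ≤ ∑ e ∈ E, ent L c' e (one (B e))

/-- SETL: removal for set systems. -/
def ST_SETL : Prop := ∀ (I V : Type) [Fintype I] [DecidableEq I] [Fintype V] [Nonempty V]
  (L : Finset (Finset I)) (rk : Finset I → ℕ), Lat L rk → ∀ E : Finset (Finset I), E ⊆ L →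
  E.Nonempty → (∀ T ∈ L, ∃ e ∈ E, T ⊆ e) → ∀ k : ℕ, (∀ e ∈ E, e.card = k) →
  ∀ (j : ℕ) (F : ℕ → ℕ), (∀ K, K ≤ F K) → Monotone F →
  (∀ rk' : Finset I → ℕ, Lat L rk' → RP V L rk' j F) → (∀ T ∈ L, rk T ≤ j + 2) →
  ∀ m M : ℕ, 2 ≤ m → 2 ≤ M → 32 * L.card ^ 2 * m ≤ M →
  Rem V E m (1 / (4 * (F ((fun M => GG L.card (F M))^[64 * E.card ^ 2 * Nat.clog 2 m] M) : ℝ) ^
    (4 * L.card)))

/-- ACKG: the iteration stays in the Ackermann hierarchy. -/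
def ST_ACKG : Prop := ∀ q : ℕ, 1 ≤ q → ∀ j M i n : ℕ, 4096 * q ^ 4 ≤ M → M ≤ Ack (j + 1) i →
  M ≤ (fun M => GG q (Fq q j M))^[n] M ∧
  (fun M => GG q (Fq q j M))^[n] M ≤ Ack (j + 1) (i + 2 * n)

/-- NUML: the final numbers. -/
def ST_NUML : Prop := ∀ j h m q e : ℕ, 2 ≤ m → 1 ≤ q → q ≤ 2 ^ h → 1 ≤ e → e ≤ 2 ^ h →
  ∀ θ : ℝ, θ = 1 / (4 * (Fq q j ((fun M => GG q (Fq q j M))^[64 * e ^ 2 *
    Nat.clog 2 (2 * (m * e))] (2 ^ (14 + 6 * h) * m)) : ℝ) ^ (4 * q)) /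
    (2 * ((m * e : ℕ) : ℝ)) →
  2 / θ ≤ (Ack (j + 1) (2 ^ (3 * h + 9) * Nat.clog 2 m) : ℝ) ∧
  (2 * (h : ℝ) ^ 2 / θ) ^ h ≤ (Ack (j + 1) (2 ^ (3 * h + 9) * Nat.clog 2 m) : ℝ)

/-- PRIML: the bound is primitive recursive. -/
def ST_PRIML : Prop := ∀ l : ℕ, Primrec₂ (fun h m : ℕ => Ack l (2 ^ (3 * h + 9) * Nat.clog 2 m))

/-- MAINL -/
def ST_MAINL : Prop := ∀ l : ℕ, 1 ≤ l → ∀ (h k : ℕ) (E : Finset (Finset (Fin h))),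
  1 ≤ k → (∀ e ∈ E, e.card = k) → E.Nonempty → HtLe E (l + 1) →
  ∀ m : ℕ, 1 ≤ m → Removal E k m (Ack l (2 ^ (3 * h + 9) * Nat.clog 2 m))

end Pool.Helper85.RL
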